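import Pool.Agent.Lib.MP_c02c19_gt.ScrRat

namespace Pool.Agent.Results.MP_c02c19_gt.SecureAlmostIntegrable

open Pool.Agent.Lib.MP_c02c19_gt

/-- A polygon in which every pair of distinct interior points is secure is almost integrable.
More precisely, a polygon that is not almost integrable contains a nonempty perfect set of interior
points, every two of which form an insecure pair, and these pairs avoid any given countable family
of real algebraic hypersurfaces. -/
theorem result (P : Set ℂ) (S : Finset (ℂ × ℂ)) (hP : IsPolygon P S) :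
    ((∀ x ∈ interior P, ∀ y ∈ interior P, x ≠ y → SecurePair P S x y) → AlmostIntegrable P) ∧
    (¬ AlmostIntegrable P → ∀ f : ℕ → MvPolynomial (Fin 4) ℝ, (∀ n, f n ≠ 0) →
      ∃ C : Set ℂ, Perfect C ∧ C.Nonempty ∧ C ⊆ interior P ∧ ∀ x ∈ C, ∀ y ∈ C, x ≠ y →
        ¬ SecurePair P S x y ∧ ∀ n, MvPolynomial.eval ![x.re, x.im, y.re, y.im] (f n) ≠ 0) :=
  ⟨almostIntegrable_of_secure hP, fun h _ hf => by_contra fun hc =>
    h (almostIntegrable_of_noScr hP ⟨_, tests_poly hf, hc⟩)⟩

end Pool.Agent.Results.MP_c02c19_gt.SecureAlmostIntegrable
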